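import Pool.Agent.H99.TF.IVa

/-! PART III of MP_0f7e37_mp, truncation piece and assembly (helper22). -/

open MeasureTheory Real Set Filter Topology

namespace Pool.Agent.H29.TF
variable {k : ℕ}

theorem Kin_mono {a b : E3 → ℝ} (ha : Adm a) (hb : Adm b) (h : ∀ x, a x ≤ b x) :
    Kin a ≤ Kin b := by
  unfold Kin
  apply mul_le_mul_of_nonneg_left _ (by norm_num)
  exact integral_mono ha.2.2 hb.2.2 fun x => Real.rpow_le_rpow (ha.1 x) (h x) (by norm_num)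

theorem Coul_mono {a b : E3 → ℝ} (ha : Adm a) (hb : Adm b) (h : ∀ x, a x ≤ b x) :
    Coul a a ≤ Coul b b := by
  rw [Coul_eq_prod ha ha, Coul_eq_prod hb hb]
  apply integral_mono (integrable_coul ha ha) (integrable_coul hb hb)
  intro p
  change a p.1 * a p.2 / ‖p.1 - p.2‖ ≤ b p.1 * b p.2 / ‖p.1 - p.2‖
  exact div_le_div_of_nonneg_right
    (mul_le_mul (h _) (h _) (ha.1 _) ((ha.1 _).trans (h _))) (norm_nonneg _)

/-- truncation -/
theorem Adm.trunc {s : E3 → ℝ} (hs : Adm s) (M : ℕ) : Adm2 (fun x => min (s x) M) := by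
  have hmeas : AEStronglyMeasurable (fun x => min (s x) (M : ℝ)) volume :=
    (hs.2.1.aestronglyMeasurable).inf aestronglyMeasurable_const
  have h0 : ∀ x, 0 ≤ min (s x) (M : ℝ) := fun x => le_min (hs.1 x) (Nat.cast_nonneg M)
  have hint : Integrable (fun x => min (s x) (M : ℝ)) := by
    refine hs.2.1.mono hmeas (Eventually.of_forall fun x => ?_)
    rw [Real.norm_of_nonneg (h0 x), Real.norm_of_nonneg (hs.1 x)]
    exact min_le_left _ _
  refine ⟨⟨h0, hint, ?_⟩, ?_⟩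
  · refine hs.2.2.mono ?_ (Eventually.of_forall fun x => ?_)
    · exact (Real.continuous_rpow_const (by norm_num)).comp_aestronglyMeasurable hmeas
    · rw [Real.norm_of_nonneg (Real.rpow_nonneg (h0 x) _),
        Real.norm_of_nonneg (Real.rpow_nonneg (hs.1 x) _)]
      exact Real.rpow_le_rpow (h0 x) (min_le_left _ _) (by norm_num)
  · refine (hs.2.1.const_mul (M : ℝ)).mono (hmeas.pow 2) (Eventually.of_forall fun x => ?_)
    rw [Real.norm_of_nonneg (sq_nonneg _),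
      Real.norm_of_nonneg (mul_nonneg (Nat.cast_nonneg M) (hs.1 x)), sq]
    exact mul_le_mul (min_le_right _ _) (min_le_left _ _) (h0 x) (Nat.cast_nonneg M)

theorem exists_trunc {z : Fin k → ℝ} (hz : ∀ i, 0 ≤ z i) (R : Fin k → E3) {μ : ℝ} (hμ : 0 ≤ μ)
    (l : ℝ) {s : E3 → ℝ} (hs : Adm s) {ε : ℝ} (hε : 0 < ε) :
    ∃ t, Adm2 t ∧ F z R μ l t ≤ F z R μ l s + ε := by
  have hlim : Tendsto (fun M : ℕ => Att z R l (fun x => min (s x) (M : ℝ))) atTop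
      (𝓝 (Att z R l s)) := by
    unfold Att
    apply tendsto_integral_of_dominated_convergence
      (fun x => (∑ i, z i / ‖x - l • R i‖) * s x)
    · intro M
      exact (integrable_att z R l (hs.trunc M).1).aestronglyMeasurable
    · exact integrable_att z R l hs
    · intro M
      refine Eventually.of_forall fun x => ?_
      have hV : 0 ≤ ∑ i, z i / ‖x - l • R i‖ :=
        Finset.sum_nonneg fun i _ => div_nonneg (hz i) (norm_nonneg _)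
      rw [Real.norm_of_nonneg (mul_nonneg hV ((hs.trunc M).1.1 x))]
      exact mul_le_mul_of_nonneg_left (min_le_left _ _) hV
    · refine Eventually.of_forall fun x => ?_
      apply Tendsto.const_mul
      obtain ⟨N, hN⟩ := exists_nat_ge (s x)
      apply tendsto_const_nhds.congr'
      filter_upwards [eventually_ge_atTop N] with M hM
      rw [min_eq_left]
      exact hN.trans (by exact_mod_cast hM)
  have hev : ∀ᶠ M : ℕ in atTop, Att z R l s - ε < Att z R l (fun x => min (s x) (M : ℝ)) :=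
    hlim.eventually (lt_mem_nhds (by linarith))
  obtain ⟨M, hM⟩ := hev.exists
  refine ⟨fun x => min (s x) (M : ℝ), hs.trunc M, ?_⟩
  rw [F_eq, F_eq]
  have h1 := Kin_mono (hs.trunc M).1 hs fun x => min_le_left _ _
  have h2 := Coul_mono (hs.trunc M).1 hs fun x => min_le_left _ _
  have h3 : ∫ x, min (s x) (M : ℝ) ≤ ∫ x, s x :=
    integral_mono (hs.trunc M).1.2.1 hs.2.1 fun x => min_le_left _ _
  have h4 : μ * ∫ x, min (s x) (M : ℝ) ≤ μ * ∫ x, s x := mul_le_mul_of_nonneg_left h3 hμ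
  linarith

/-- PART III from the two comparison facts and `DDh` -/
theorem DD_of {z : Fin k → ℝ} (hz : ∀ i, 0 < z i) (R : Fin k → E3)
    (hle : ∀ (h : ℝ), 0 < h → ∀ (μ l : ℝ) (s : E3 → ℝ), Adm2 s →
      F z R μ l s ≤ Fh h z R μ l s)
    (hlim : ∀ (μ l : ℝ) (s : E3 → ℝ), Adm2 s → ∀ ε : ℝ, 0 < ε →
      ∃ h₀ : ℝ, 0 < h₀ ∧ ∀ h : ℝ, 0 < h → h ≤ h₀ → Fh h z R μ l s ≤ F z R μ l s + ε)
    (hDDh : ∀ (h : ℝ), 0 < h → ∀ (μ₁ μ₂ l l' : ℝ), 0 < μ₂ → μ₂ < μ₁ → 0 < l → l ≤ l' →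
      ∀ (σ τ : E3 → ℝ), Adm2 σ → Adm2 τ → ∀ δ : ℝ, 0 < δ →
      ∃ ρ ρ' : E3 → ℝ, Adm2 ρ ∧ Adm2 ρ' ∧
      Fh h z R μ₁ l' ρ + Fh h z R μ₂ l ρ' ≤ Fh h z R μ₁ l σ + Fh h z R μ₂ l' τ + δ)
    (μ₁ μ₂ l l' : ℝ) (h2 : 0 < μ₂) (h12 : μ₂ < μ₁) (hl : 0 < l) (hll : l ≤ l')
    (σ τ : E3 → ℝ) (hσ : Adm σ) (hτ : Adm τ) (δ : ℝ) (hδ : 0 < δ) :
    ∃ ρ ρ' : E3 → ℝ, Adm ρ ∧ Adm ρ' ∧
      F z R μ₁ l' ρ + F z R μ₂ l ρ' ≤ F z R μ₁ l σ + F z R μ₂ l' τ + δ := by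
  have hz' : ∀ i, 0 ≤ z i := fun i => (hz i).le
  have h5 : 0 < δ / 5 := by positivity
  obtain ⟨σ', hσ', e1⟩ := exists_trunc hz' R (by linarith : 0 ≤ μ₁) l hσ h5
  obtain ⟨τ', hτ', e2⟩ := exists_trunc hz' R h2.le l' hτ h5
  obtain ⟨h₁, hh₁, f1⟩ := hlim μ₁ l σ' hσ' (δ / 5) h5
  obtain ⟨h₂, hh₂, f2⟩ := hlim μ₂ l' τ' hτ' (δ / 5) h5
  set h := min h₁ h₂ with hh
  have hpos : 0 < h := lt_min hh₁ hh₂
  have g1 := f1 h hpos (min_le_left _ _)
  have g2 := f2 h hpos (min_le_right _ _)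
  obtain ⟨ρ, ρ', hρ, hρ', hfin⟩ := hDDh h hpos μ₁ μ₂ l l' h2 h12 hl hll σ' τ' hσ' hτ' (δ / 5) h5
  refine ⟨ρ, ρ', hρ.1, hρ'.1, ?_⟩
  have k1 := hle h hpos μ₁ l' ρ hρ
  have k2 := hle h hpos μ₂ l ρ' hρ'
  linarith

end Pool.Agent.H29.TF
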