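import Pool.Agent.H99.TF.IVa
import Pool.Agent.H82.TF.ChK
import Pool.Agent.H22.TF.Trunc

/-! PART III of MP_0f7e37_mp: the potential part, `Fh → F` (helper22). -/

open MeasureTheory Real Set Filter Topology

namespace Pool.Agent.H29.TF
variable {k : ℕ}

theorem vh_anti {h h' : ℝ} (hh : 0 < h) (hle : h ≤ h') (x : E3) : vh h' x ≤ vh h x := by
  unfold vh
  apply mul_le_mul_of_nonneg_left _ (by positivity)
  apply setIntegral_mono_set (Pool.Agent.H82.TF.integrableOn_hk hh x)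
  · exact (ae_restrict_iff' measurableSet_Ioi).2
      (Eventually.of_forall fun t ht => hk_nonneg (hh.le.trans (le_of_lt ht)) x)
  · exact (Ioi_subset_Ioi hle).eventuallyLE

theorem vh_le_inv {h : ℝ} (hh : 0 < h) {x : E3} (hx : x ≠ 0) : vh h x ≤ 1 / ‖x‖ := by
  rw [← integral_hk_Ioi hx]
  unfold vh
  apply mul_le_mul_of_nonneg_left _ (by positivity)
  apply setIntegral_mono_set (integrableOn_hk_Ioi hx)
  · exact (ae_restrict_iff' measurableSet_Ioi).2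
      (Eventually.of_forall fun t ht => hk_nonneg (le_of_lt ht) x)
  · exact (Ioi_subset_Ioi hh.le).eventuallyLE

theorem tendsto_vh {x : E3} (hx : x ≠ 0) :
    Tendsto (fun n : ℕ => vh (1 / ((n : ℝ) + 1)) x) atTop (𝓝 (1 / ‖x‖)) := by
  rw [← integral_hk_Ioi hx]
  unfold vh
  apply Tendsto.const_mul
  have hU : (⋃ n : ℕ, Ioi (1 / ((n : ℝ) + 1))) = Ioi (0 : ℝ) := by
    ext t
    simp only [mem_iUnion, mem_Ioi]
    constructor
    · rintro ⟨n, hn⟩
      have : (0 : ℝ) < 1 / ((n : ℝ) + 1) := by positivity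
      linarith
    · intro ht
      exact exists_nat_one_div_lt ht
  rw [← hU]
  apply tendsto_setIntegral_of_monotone (fun n => measurableSet_Ioi)
  · intro n m hnm
    apply Ioi_subset_Ioi
    apply one_div_le_one_div_of_le (by positivity)
    have : (n : ℝ) ≤ m := by exact_mod_cast hnm
    linarith
  · rw [hU]
    exact integrableOn_hk_Ioi hx

/-- truncated attraction -/
noncomputable def AttH (h : ℝ) (z : Fin k → ℝ) (R : Fin k → E3) (l : ℝ) (ρ : E3 → ℝ) : ℝ :=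
  ∫ x, (∑ i, z i * vh h (x - l • R i)) * ρ x

theorem vh_sum_le {z : Fin k → ℝ} (hz : ∀ i, 0 ≤ z i) (Q : Fin k → E3) {h : ℝ} (hh : 0 < h) :
    ∀ᵐ x : E3, ∑ i, z i * vh h (x - Q i) ≤ ∑ i, z i / ‖x - Q i‖ := by
  have h1 : ∀ᵐ x : E3, ∀ i, x ≠ Q i := by
    rw [ae_all_iff]
    intro i
    exact (ae_ne_prod (Q i)).mono fun y hy => Ne.symm hy
  filter_upwards [h1] with x hx
  apply Finset.sum_le_sum
  intro i _
  rw [div_eq_mul_one_div]
  exact mul_le_mul_of_nonneg_left (vh_le_inv hh (sub_ne_zero.2 (hx i))) (hz i)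

theorem vh_sum_nonneg {z : Fin k → ℝ} (hz : ∀ i, 0 ≤ z i) (Q : Fin k → E3) {h : ℝ} (hh : 0 < h)
    (x : E3) : 0 ≤ ∑ i, z i * vh h (x - Q i) :=
  Finset.sum_nonneg fun i _ => mul_nonneg (hz i) (Pool.Agent.H82.TF.vh_nonneg hh _)

theorem measurable_vh_sum (z : Fin k → ℝ) (Q : Fin k → E3) (h : ℝ) :
    Measurable (fun x : E3 => ∑ i, z i * vh h (x - Q i)) :=
  Finset.measurable_sum _ fun i _ =>
    ((Pool.Agent.H82.TF.measurable_vh h).comp (measurable_id.sub_const (Q i))).const_mul _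

theorem integrable_attH {z : Fin k → ℝ} (hz : ∀ i, 0 ≤ z i) (R : Fin k → E3) (l : ℝ) {h : ℝ}
    (hh : 0 < h) {ρ : E3 → ℝ} (hρ : Adm ρ) :
    Integrable (fun x => (∑ i, z i * vh h (x - l • R i)) * ρ x) := by
  refine (integrable_att z R l hρ).mono
    ((measurable_vh_sum z _ h).aestronglyMeasurable.mul hρ.2.1.aestronglyMeasurable) ?_
  filter_upwards [vh_sum_le hz (fun i => l • R i) hh] with x hx
  have h0 := vh_sum_nonneg hz (fun i => l • R i) hh x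
  rw [Real.norm_of_nonneg (mul_nonneg h0 (hρ.1 x)),
    Real.norm_of_nonneg (mul_nonneg (h0.trans hx) (hρ.1 x))]
  exact mul_le_mul_of_nonneg_right hx (hρ.1 x)

theorem AttH_le_Att {z : Fin k → ℝ} (hz : ∀ i, 0 ≤ z i) (R : Fin k → E3) (l : ℝ) {h : ℝ}
    (hh : 0 < h) {ρ : E3 → ℝ} (hρ : Adm ρ) : AttH h z R l ρ ≤ Att z R l ρ := by
  apply integral_mono_ae (integrable_attH hz R l hh hρ) (integrable_att z R l hρ)
  filter_upwards [vh_sum_le hz (fun i => l • R i) hh] with x hx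
  exact mul_le_mul_of_nonneg_right hx (hρ.1 x)

theorem AttH_anti {z : Fin k → ℝ} (hz : ∀ i, 0 ≤ z i) (R : Fin k → E3) (l : ℝ) {h h' : ℝ}
    (hh : 0 < h) (hle : h ≤ h') {ρ : E3 → ℝ} (hρ : Adm ρ) :
    AttH h' z R l ρ ≤ AttH h z R l ρ := by
  apply integral_mono (integrable_attH hz R l (hh.trans_le hle) hρ) (integrable_attH hz R l hh hρ)
  intro x
  apply mul_le_mul_of_nonneg_right _ (hρ.1 x)
  exact Finset.sum_le_sum fun i _ => mul_le_mul_of_nonneg_left (vh_anti hh hle _) (hz i)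

theorem tendsto_AttH {z : Fin k → ℝ} (hz : ∀ i, 0 ≤ z i) (R : Fin k → E3) (l : ℝ)
    {ρ : E3 → ℝ} (hρ : Adm ρ) :
    Tendsto (fun n : ℕ => AttH (1 / ((n : ℝ) + 1)) z R l ρ) atTop (𝓝 (Att z R l ρ)) := by
  unfold AttH Att
  have hpos : ∀ n : ℕ, (0 : ℝ) < 1 / ((n : ℝ) + 1) := fun n => by positivity
  apply tendsto_integral_of_dominated_convergence
    (fun x => (∑ i, z i / ‖x - l • R i‖) * ρ x)
  · intro n
    exact (integrable_attH hz R l (hpos n) hρ).aestronglyMeasurable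
  · exact integrable_att z R l hρ
  · intro n
    filter_upwards [vh_sum_le hz (fun i => l • R i) (hpos n)] with x hx
    rw [Real.norm_of_nonneg (mul_nonneg (vh_sum_nonneg hz (fun i => l • R i) (hpos n) x) (hρ.1 x))]
    exact mul_le_mul_of_nonneg_right hx (hρ.1 x)
  · have h1 : ∀ᵐ x : E3, ∀ i, x ≠ l • R i := by
      rw [ae_all_iff]
      intro i
      exact (ae_ne_prod (l • R i)).mono fun y hy => Ne.symm hy
    filter_upwards [h1] with x hx
    apply Tendsto.mul_const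
    apply tendsto_finsetSum
    intro i _
    rw [div_eq_mul_one_div]
    exact (tendsto_vh (sub_ne_zero.2 (hx i))).const_mul _

/-- the potential part -/
theorem exists_AttH {z : Fin k → ℝ} (hz : ∀ i, 0 ≤ z i) (R : Fin k → E3) (l : ℝ)
    {ρ : E3 → ℝ} (hρ : Adm ρ) {ε : ℝ} (hε : 0 < ε) :
    ∃ h₀ : ℝ, 0 < h₀ ∧ ∀ h : ℝ, 0 < h → h ≤ h₀ → Att z R l ρ ≤ AttH h z R l ρ + ε := by
  have hev : ∀ᶠ n : ℕ in atTop, Att z R l ρ - ε < AttH (1 / ((n : ℝ) + 1)) z R l ρ :=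
    (tendsto_AttH hz R l hρ).eventually (lt_mem_nhds (by linarith))
  obtain ⟨n, hn⟩ := hev.exists
  refine ⟨1 / ((n : ℝ) + 1), by positivity, fun h hh hle => ?_⟩
  have := AttH_anti hz R l hh hle hρ
  linarith

theorem Fh_eq (h : ℝ) (z : Fin k → ℝ) (R : Fin k → E3) (μ l : ℝ) (ρ : E3 → ℝ) :
    Fh h z R μ l ρ = Kin ρ + 2 * π * h * (∫ x, ρ x ^ 2) - AttH h z R l ρ
      + (1 / 2 : ℝ) * (∫ x, (∫ y, ρ x * ρ y * Ch h (x - y))) + μ * ∫ x, ρ x := rfl

/-- upper half: `limsup Fh ≤ F` -/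
theorem hlim_of {z : Fin k → ℝ} (hz : ∀ i, 0 < z i) (R : Fin k → E3)
    (hsand : ∀ (h : ℝ), 0 < h → ∀ s : E3 → ℝ, Adm2 s →
      (∫ x, (∫ y, s x * s y * Ch h (x - y))) ≤ Coul s s)
    (μ l : ℝ) (s : E3 → ℝ) (hs : Adm2 s) (ε : ℝ) (hε : 0 < ε) :
    ∃ h₀ : ℝ, 0 < h₀ ∧ ∀ h : ℝ, 0 < h → h ≤ h₀ → Fh h z R μ l s ≤ F z R μ l s + ε := by
  have hz' : ∀ i, 0 ≤ z i := fun i => (hz i).le
  obtain ⟨h₁, hh₁, H⟩ := exists_AttH hz' R l hs.1 (half_pos hε)
  set I : ℝ := ∫ x, s x ^ 2 with hI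
  have hI0 : 0 ≤ I := MeasureTheory.integral_nonneg fun x => sq_nonneg _
  refine ⟨min h₁ (ε / (4 * π * (I + 1))), lt_min hh₁ (by positivity), fun h hh hle => ?_⟩
  have h1 := H h hh (hle.trans (min_le_left _ _))
  have h2 : h ≤ ε / (4 * π * (I + 1)) := hle.trans (min_le_right _ _)
  have h3 := hsand h hh s hs
  have h4 : 2 * π * h * I ≤ ε / 2 := by
    calc 2 * π * h * I ≤ 2 * π * (ε / (4 * π * (I + 1))) * I := by gcongr
      _ = ε / 2 * (I / (I + 1)) := by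
          have := pi_pos
          field_simp
          ring
      _ ≤ ε / 2 * 1 := by
          gcongr
          rw [div_le_one (by positivity)]; linarith
      _ = ε / 2 := mul_one _
  rw [Fh_eq, F_eq, ← hI]
  linarith

/-- lower half: `F ≤ Fh` -/
theorem hle_of {z : Fin k → ℝ} (hz : ∀ i, 0 < z i) (R : Fin k → E3)
    (hsand : ∀ (h : ℝ), 0 < h → ∀ s : E3 → ℝ, Adm2 s →
      Coul s s ≤ 4 * π * h * (∫ x, s x ^ 2) + ∫ x, (∫ y, s x * s y * Ch h (x - y)))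
    (h : ℝ) (hh : 0 < h) (μ l : ℝ) (s : E3 → ℝ) (hs : Adm2 s) :
    F z R μ l s ≤ Fh h z R μ l s := by
  have h1 := AttH_le_Att (fun i => (hz i).le) R l hh hs.1
  have h2 := hsand h hh s hs
  rw [Fh_eq, F_eq]
  linarith

end Pool.Agent.H29.TF
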