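import Pool.Agent.H22.TF.IVb
import Pool.Agent.H22.TF.Pot
import Pool.Agent.H29.TF.UMono

/-! Assembly of MP_0f7e37_mp (helper22), with the Coulomb sandwich as a hypothesis. -/

open MeasureTheory Real Set Filter Topology

namespace Pool.Agent.H29.TF
variable {k : ℕ}

theorem DDprop_of_sandwich
    (hs1 : ∀ (h : ℝ), 0 < h → ∀ s : E3 → ℝ, Adm2 s →
      (∫ x, (∫ y, s x * s y * Ch h (x - y))) ≤ Coul s s)
    (hs2 : ∀ (h : ℝ), 0 < h → ∀ s : E3 → ℝ, Adm2 s →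
      Coul s s ≤ 4 * π * h * (∫ x, s x ^ 2) + ∫ x, (∫ y, s x * s y * Ch h (x - y)))
    (z : Fin k → ℝ) (hz : ∀ i, 0 < z i) (R : Fin k → E3) : DDprop z R := by
  intro μ₁ μ₂ l l' h2 h12 hl hll σ τ hσ hτ δ hδ
  refine DD_of hz R (fun h hh μ l s hs => hle_of hz R hs2 h hh μ l s hs)
    (fun μ l s hs ε hε => hlim_of hz R hs1 μ l s hs ε hε) ?_ μ₁ μ₂ l l' h2 h12 hl hll
    σ τ hσ hτ δ hδ
  intro h hh μ₁ μ₂ l l' h2 h12 hl hll σ τ hσ hτ δ hδ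
  exact DDh h hh z hz R μ₁ μ₂ l l' h2 h12 hl hll σ τ hσ hτ δ hδ

end Pool.Agent.H29.TF
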