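import Pool.Agent.H99.TF.IVa

/-! PART IVb of MP_0f7e37_mp: multipliers, limit argument and assembly (helper22). -/

open MeasureTheory Real Set Filter Topology

namespace Pool.Agent.H29.TF
variable {k : ℕ}

/-- potential energy at dilation 1 -/
noncomputable def Bp (z : Fin k → ℝ) (R : Fin k → E3) (ρ : E3 → ℝ) : ℝ :=
  - Att z R 1 ρ + (1 / 2 : ℝ) * Coul ρ ρ

theorem F_one_eq (z : Fin k → ℝ) (R : Fin k → E3) (μ : ℝ) (ρ : E3 → ℝ) :
    F z R μ 1 ρ = Kin ρ + Bp z R ρ + μ * ∫ x, ρ x := by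
  rw [F_eq, Bp]; ring

theorem F_dil_eq (z : Fin k → ℝ) (R : Fin k → E3) (μ : ℝ) {l : ℝ} (hl : 0 < l) (ρ : E3 → ℝ)
    (hρ : ∀ x, 0 ≤ ρ x) :
    F z R μ l (dil l ρ) = (l ^ 2)⁻¹ * Kin ρ + l⁻¹ * Bp z R ρ + μ * ∫ x, ρ x := by
  rw [F_dil z R μ hl ρ hρ, Bp]

theorem Adm.convex {a b : E3 → ℝ} (ha : Adm a) (hb : Adm b) {t : ℝ} (h0 : 0 ≤ t) (h1 : t ≤ 1) :
    Adm (fun x => t * a x + (1 - t) * b x) :=
  (ha.const_mul h0).add (hb.const_mul (sub_nonneg.2 h1))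

theorem Adm.integrable {a : E3 → ℝ} (ha : Adm a) : Integrable a := ha.2.1

theorem Adm.integral_nonneg {a : E3 → ℝ} (ha : Adm a) : 0 ≤ ∫ x, a x :=
  MeasureTheory.integral_nonneg ha.1

theorem integral_convex {a b : E3 → ℝ} (ha : Adm a) (hb : Adm b) (t : ℝ) :
    ∫ x, (t * a x + (1 - t) * b x) = t * (∫ x, a x) + (1 - t) * ∫ x, b x := by
  rw [integral_add (ha.integrable.const_mul t) (hb.integrable.const_mul (1 - t)),
    integral_const_mul, integral_const_mul]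

theorem Coul_const_mul {a : E3 → ℝ} (c : ℝ) :
    Coul (fun x => c * a x) (fun x => c * a x) = c ^ 2 * Coul a a := by
  unfold Coul
  rw [← integral_const_mul]
  congr 1
  ext x
  rw [← integral_const_mul]
  congr 1
  ext y
  ring

theorem Att_const_mul (z : Fin k → ℝ) (R : Fin k → E3) (l : ℝ) {a : E3 → ℝ} (c : ℝ) :
    Att z R l (fun x => c * a x) = c * Att z R l a := by
  unfold Att
  rw [← integral_const_mul]
  congr 1
  ext x
  ring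

theorem Kin_const_mul {a : E3 → ℝ} (ha : ∀ x, 0 ≤ a x) {c : ℝ} (hc : 0 ≤ c) :
    Kin (fun x => c * a x) = c ^ ((5 : ℝ) / 3) * Kin a := by
  unfold Kin
  have : (fun x => (c * a x) ^ ((5 : ℝ) / 3)) =
      fun x => c ^ ((5 : ℝ) / 3) * (a x) ^ ((5 : ℝ) / 3) := by
    ext x
    rw [Real.mul_rpow hc (ha x)]
  rw [this, integral_const_mul]
  ring

theorem Kin_const_mul_le {a : E3 → ℝ} (ha : Adm a) {c : ℝ} (hc : 1 ≤ c) :
    Kin (fun x => c * a x) ≤ c ^ 2 * Kin a := by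
  rw [Kin_const_mul ha.1 (by linarith)]
  apply mul_le_mul_of_nonneg_right _ (Kin_nonneg ha)
  rw [← Real.rpow_natCast]
  apply Real.rpow_le_rpow_of_exponent_le hc
  norm_num

/-! ### (c) multipliers -/

/-- spreading out: mass can be doubled at arbitrarily small cost -/
theorem exists_spread (z : Fin k → ℝ) (hz : ∀ i, 0 < z i) (R : Fin k → E3) {ρ : E3 → ℝ}
    (hρ : Adm ρ) {δ : ℝ} (hδ : 0 < δ) :
    ∃ t : E3 → ℝ, Adm t ∧ (∫ x, t x = 2 * ∫ x, ρ x) ∧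
      Kin t + Bp z R t ≤ Kin ρ + Bp z R ρ + δ := by
  set Q : ℝ := Kin ρ + (1 / 2 : ℝ) * Coul ρ ρ with hQ
  have hK : 0 ≤ Kin ρ := Kin_nonneg hρ
  have hC : 0 ≤ Coul ρ ρ := Coul_nonneg hρ hρ
  have hQ0 : 0 ≤ Q := by positivity
  -- choice of θ
  obtain ⟨θ, hθ0, hθ1, hθ2⟩ : ∃ θ : ℝ, 0 < θ ∧ θ ≤ 1 / 2 ∧ 3 * θ * Q ≤ δ := by
    refine ⟨min (1 / 2) (δ / (3 * (Q + 1))), by positivity, min_le_left _ _, ?_⟩
    have h1 : min (1 / 2) (δ / (3 * (Q + 1))) ≤ δ / (3 * (Q + 1)) := min_le_right _ _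
    calc 3 * min (1 / 2) (δ / (3 * (Q + 1))) * Q
        ≤ 3 * (δ / (3 * (Q + 1))) * Q := by gcongr
      _ = δ * (Q / (Q + 1)) := by field_simp
      _ ≤ δ * 1 := by
          gcongr
          rw [div_le_one (by positivity)]
          linarith
      _ = δ := mul_one _
  have h1θ : 0 < 1 - θ := by linarith
  set c : ℝ := (1 - θ)⁻¹ with hc
  have hc1 : 1 ≤ c := by
    rw [hc, one_le_inv₀ h1θ]; linarith
  set L : ℝ := (θ ^ 2)⁻¹ with hL
  have hL0 : 0 < L := by positivity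
  set d : ℝ := θ⁻¹ with hd
  have hd1 : 1 ≤ d := by
    rw [hd, one_le_inv₀ hθ0]; linarith
  have hdil : Adm (dil L ρ) := hρ.dil hL0
  set a : E3 → ℝ := fun x => d * dil L ρ x with ha
  set b : E3 → ℝ := fun x => c * ρ x with hb
  have haA : Adm a := hdil.const_mul (by linarith)
  have hbA : Adm b := hρ.const_mul (by linarith)
  refine ⟨fun x => θ * a x + (1 - θ) * b x, haA.convex hbA hθ0.le (by linarith), ?_, ?_⟩
  · rw [integral_convex haA hbA, ha, hb, integral_const_mul, integral_const_mul,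
      integral_dil hL0, hc, hd]
    field_simp
    ring
  · have hconv := F_convex z R 0 1 haA hbA hθ0.le (by linarith : θ ≤ 1)
    rw [F_one_eq, F_one_eq, F_one_eq] at hconv
    simp only [zero_mul, add_zero] at hconv
    refine hconv.trans ?_
    -- first term
    have hz' : ∀ i, 0 ≤ z i := fun i => (hz i).le
    have hAtt1 : 0 ≤ Att z R 1 a := Att_nonneg hz' R 1 haA
    have h1 : Kin a ≤ d ^ 2 * ((L ^ 2)⁻¹ * Kin ρ) := by
      rw [← Kin_dil hL0 ρ hρ.1]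
      exact Kin_const_mul_le hdil hd1
    have h2 : Coul a a = d ^ 2 * (L⁻¹ * Coul ρ ρ) := by
      rw [← Coul_dil hL0 ρ ρ]
      exact Coul_const_mul d
    have h3 : Kin b ≤ c ^ 2 * Kin ρ := Kin_const_mul_le hρ hc1
    have h4 : Coul b b = c ^ 2 * Coul ρ ρ := Coul_const_mul c
    have h5 : Att z R 1 b = c * Att z R 1 ρ := Att_const_mul z R 1 c
    have hcθ : (1 - θ) * c = 1 := by rw [hc]; field_simp
    have hdθ : θ * d = 1 := by rw [hd]; field_simp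
    have hLθ : L⁻¹ = θ ^ 2 := by rw [hL, inv_inv]
    have hL2θ : (L ^ 2)⁻¹ = θ ^ 4 := by rw [← inv_pow, hLθ]; ring
    have hE1 : θ * (Kin a + Bp z R a) ≤ θ * Q := by
      apply mul_le_mul_of_nonneg_left _ hθ0.le
      have : Kin a + Bp z R a ≤ d ^ 2 * ((L ^ 2)⁻¹ * Kin ρ) + 1 / 2 * (d ^ 2 * (L⁻¹ * Coul ρ ρ)) := by
        rw [Bp, h2]; linarith
      refine this.trans ?_
      rw [hL2θ, hLθ]
      have e1 : d ^ 2 * (θ ^ 4 * Kin ρ) = θ ^ 2 * Kin ρ := by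
        have : d ^ 2 * (θ ^ 4 * Kin ρ) = (θ * d) ^ 2 * (θ ^ 2 * Kin ρ) := by ring
        rw [this, hdθ]; ring
      have e2 : d ^ 2 * (θ ^ 2 * Coul ρ ρ) = Coul ρ ρ := by
        have : d ^ 2 * (θ ^ 2 * Coul ρ ρ) = (θ * d) ^ 2 * (Coul ρ ρ) := by ring
        rw [this, hdθ]; ring
      rw [e1, e2, hQ]
      have : θ ^ 2 * Kin ρ ≤ 1 * Kin ρ := by
        apply mul_le_mul_of_nonneg_right _ hK
        nlinarith
      linarith
    have hE2 : (1 - θ) * (Kin b + Bp z R b) ≤ Kin ρ + Bp z R ρ + (c - 1) * Q := by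
      have : (1 - θ) * (Kin b + Bp z R b) ≤
          (1 - θ) * (c ^ 2 * Kin ρ + (- (c * Att z R 1 ρ) + 1 / 2 * (c ^ 2 * Coul ρ ρ))) := by
        apply mul_le_mul_of_nonneg_left _ h1θ.le
        rw [Bp, h4, h5]; linarith
      refine this.trans (le_of_eq ?_)
      have e : (1 - θ) * (c ^ 2 * Kin ρ + (- (c * Att z R 1 ρ) + 1 / 2 * (c ^ 2 * Coul ρ ρ))) =
        ((1 - θ) * c) * (c * Kin ρ + (- Att z R 1 ρ) + 1 / 2 * (c * Coul ρ ρ)) := by ring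
      rw [e, hcθ, Bp, hQ]; ring
    have hc2 : c - 1 ≤ 2 * θ := by
      have : c * (1 - θ) = 1 := by rw [mul_comm]; exact hcθ
      nlinarith
    have : (c - 1) * Q ≤ 2 * θ * Q := mul_le_mul_of_nonneg_right hc2 hQ0
    linarith

theorem exists_mult (z : Fin k → ℝ) (hz : ∀ i, 0 < z i) (R : Fin k → E3) {ρ : E3 → ℝ}
    (hρ : Adm ρ) (hpos : 0 < ∫ x, ρ x)
    (hmin : ∀ s, Adm s → (∫ x, s x) = ∫ x, ρ x → Kin ρ + Bp z R ρ ≤ Kin s + Bp z R s) :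
    ∃ μ : ℝ, 0 ≤ μ ∧ ∀ s, Adm s → F z R μ 1 ρ ≤ F z R μ 1 s := by
  set m : ℝ := ∫ x, ρ x with hm
  set E0 : (E3 → ℝ) → ℝ := fun s => Kin s + Bp z R s with hE0
  have key : ∀ s t : E3 → ℝ, Adm s → Adm t → ∫ x, s x < m → m < ∫ x, t x →
      (E0 ρ - E0 s) / (m - ∫ x, s x) ≤ (E0 t - E0 ρ) / ((∫ x, t x) - m) := by
    intro s t hs ht h1 h2
    set ms := ∫ x, s x with hms
    set mt := ∫ x, t x with hmt
    have hd : 0 < mt - ms := by linarith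
    set θ := (mt - m) / (mt - ms) with hθ
    have hθ0 : 0 ≤ θ := by apply div_nonneg <;> linarith
    have hθ1 : θ ≤ 1 := by rw [hθ, div_le_one hd]; linarith
    have hconv := F_convex z R 0 1 hs ht hθ0 hθ1
    rw [F_one_eq, F_one_eq, F_one_eq] at hconv
    simp only [zero_mul, add_zero] at hconv
    have hmass : ∫ x, (θ * s x + (1 - θ) * t x) = m := by
      rw [integral_convex hs ht, ← hms, ← hmt, hθ]
      field_simp
      ring
    have h3 := hmin _ (hs.convex ht hθ0 hθ1) hmass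
    have h4 : E0 ρ ≤ θ * E0 s + (1 - θ) * E0 t := h3.trans hconv
    rw [div_le_div_iff₀ (by linarith) (by linarith)]
    have h5 : (mt - ms) * E0 ρ ≤ (mt - m) * E0 s + (m - ms) * E0 t := by
      have e1 : (mt - ms) * θ = mt - m := by rw [hθ]; field_simp
      have e2 : (mt - ms) * (1 - θ) = m - ms := by rw [mul_sub, e1]; ring
      calc (mt - ms) * E0 ρ ≤ (mt - ms) * (θ * E0 s + (1 - θ) * E0 t) :=
            mul_le_mul_of_nonneg_left h4 hd.le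
        _ = ((mt - ms) * θ) * E0 s + ((mt - ms) * (1 - θ)) * E0 t := by ring
        _ = _ := by rw [e1, e2]
    nlinarith
  set T : Set ℝ := {q | ∃ s, Adm s ∧ ∫ x, s x < m ∧ q = (E0 ρ - E0 s) / (m - ∫ x, s x)} with hT
  have hne : T.Nonempty := by
    refine ⟨_, fun _ => 0, Adm.zero, ?_, rfl⟩
    simpa using hpos
  have hub : ∀ t : E3 → ℝ, Adm t → m < ∫ x, t x →
      sSup T ≤ (E0 t - E0 ρ) / ((∫ x, t x) - m) := by
    intro t ht h2
    apply csSup_le hne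
    rintro q ⟨s, hs, h1, rfl⟩
    exact key s t hs ht h1 h2
  have hbdd : BddAbove T := by
    obtain ⟨t, ht, h1, -⟩ := exists_spread z hz R hρ one_pos
    refine ⟨(E0 t - E0 ρ) / ((∫ x, t x) - m), ?_⟩
    rintro q ⟨s, hs, h2, rfl⟩
    exact key s t hs ht h2 (by rw [h1]; linarith)
  refine ⟨- sSup T, ?_, ?_⟩
  · rw [neg_nonneg]
    apply le_of_forall_pos_le_add
    intro δ hδ
    obtain ⟨t, ht, h1, h2⟩ := exists_spread z hz R hρ (mul_pos hδ hpos)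
    have h3 := hub t ht (by rw [h1]; linarith)
    refine h3.trans ?_
    rw [h1, zero_add, div_le_iff₀ (by linarith)]
    have : E0 t ≤ E0 ρ + δ * m := h2
    linarith
  · intro s hs
    rw [F_one_eq, F_one_eq]
    change E0 ρ + _ ≤ E0 s + _
    rcases lt_trichotomy (∫ x, s x) m with h | h | h
    · have h1 : (E0 ρ - E0 s) / (m - ∫ x, s x) ≤ sSup T := le_csSup hbdd ⟨s, hs, h, rfl⟩
      rw [div_le_iff₀ (by linarith)] at h1
      rw [← hm]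
      nlinarith
    · have h1 := hmin s hs h
      rw [h, ← hm]
      have : E0 ρ ≤ E0 s := h1
      linarith
    · have h1 := hub s hs h
      rw [le_div_iff₀ (by linarith)] at h1
      rw [← hm]
      nlinarith

/-! ### (e) limit argument -/

theorem min_seq_limit (z : Fin k → ℝ) (R : Fin k → E3) (μ : ℝ) {ρ : E3 → ℝ}
    (hρ : Adm ρ) (hmin : ∀ s, Adm s → F z R μ 1 ρ ≤ F z R μ 1 s) (s : ℕ → E3 → ℝ)
    (hs : ∀ n, Adm (s n))
    (hF : Tendsto (fun n => F z R μ 1 (s n)) atTop (𝓝 (F z R μ 1 ρ))) :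
    Tendsto (fun n => Kin (s n)) atTop (𝓝 (Kin ρ)) ∧
      ∃ φ : ℕ → ℕ, StrictMono φ ∧ ∀ δ : ℝ, 0 < δ →
        ∀ᶠ n in atTop, (∫ x, ρ x) - δ ≤ ∫ x, s (φ n) x := by
  obtain ⟨c₀, hc₀, hmid⟩ := F_mid
  set D : ℕ → ℝ := fun n => ∫ x, ((s n x) ^ ((5 : ℝ) / 6) - (ρ x) ^ ((5 : ℝ) / 6)) ^ 2 with hD
  have hD0 : ∀ n, 0 ≤ D n := fun n => MeasureTheory.integral_nonneg fun x => sq_nonneg _
  have hDle : ∀ n, D n ≤ (F z R μ 1 (s n) - F z R μ 1 ρ) / (2 * c₀) := by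
    intro n
    have h1 := hmid z R μ 1 (s n) ρ (hs n) hρ
    have h2 : Adm (fun x => (1 / 2) * s n x + (1 / 2) * ρ x) :=
      ((hs n).const_mul (by norm_num)).add (hρ.const_mul (by norm_num))
    have h3 := hmin _ h2
    rw [le_div_iff₀ (by positivity)]
    have : c₀ * D n ≤ (F z R μ 1 (s n) + F z R μ 1 ρ) / 2 - F z R μ 1 ρ := by
      simp only [hD]; linarith
    nlinarith
  have hDlim : Tendsto D atTop (𝓝 0) := by
    have h1 : Tendsto (fun n => (F z R μ 1 (s n) - F z R μ 1 ρ) / (2 * c₀)) atTop (𝓝 0) := by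
      have := (hF.sub_const (F z R μ 1 ρ)).div_const (2 * c₀)
      simpa using this
    exact squeeze_zero hD0 hDle h1
  have hsq : ∀ (a : E3 → ℝ), (∀ x, 0 ≤ a x) → ∀ x, (a x ^ ((5 : ℝ) / 6)) ^ 2 = a x ^ ((5 : ℝ) / 3) := by
    intro a ha x
    rw [← Real.rpow_natCast, ← Real.rpow_mul (ha x)]
    norm_num
  constructor
  · -- convergence of kinetic energies
    have hK : Tendsto (fun n => ∫ x, s n x ^ ((5 : ℝ) / 3)) atTop
        (𝓝 (∫ x, ρ x ^ ((5 : ℝ) / 3))) := by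
      set I : ℝ := ∫ x, ρ x ^ ((5 : ℝ) / 3) with hI
      have hI0 : 0 ≤ I := MeasureTheory.integral_nonneg fun x => Real.rpow_nonneg (hρ.1 x) _
      have hbound : ∀ η : ℝ, 0 < η → ∀ n,
          |(∫ x, s n x ^ ((5 : ℝ) / 3)) - I| ≤ η * I + (1 + 1 / η) * D n := by
        intro η hη n
        rw [hI, ← integral_sub (hs n).2.2 hρ.2.2]
        have hint : Integrable (fun x => η * ρ x ^ ((5 : ℝ) / 3) +
            (1 + 1 / η) * ((s n x) ^ ((5 : ℝ) / 6) - (ρ x) ^ ((5 : ℝ) / 6)) ^ 2) :=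
          (hρ.2.2.const_mul _).add ((integrable_gain (hs n) hρ).const_mul _)
        have e : η * (∫ x, ρ x ^ ((5 : ℝ) / 3)) + (1 + 1 / η) * D n =
            ∫ x, (η * ρ x ^ ((5 : ℝ) / 3) +
            (1 + 1 / η) * ((s n x) ^ ((5 : ℝ) / 6) - (ρ x) ^ ((5 : ℝ) / 6)) ^ 2) := by
          rw [integral_add (hρ.2.2.const_mul _) ((integrable_gain (hs n) hρ).const_mul _),
            integral_const_mul, integral_const_mul]
        rw [e]
        rw [← Real.norm_eq_abs]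
        refine (norm_integral_le_integral_norm _).trans (integral_mono ?_ hint ?_)
        · exact ((hs n).2.2.sub hρ.2.2).norm
        · intro x
          simp only [Real.norm_eq_abs]
          rw [← hsq (s n) (hs n).1 x, ← hsq ρ hρ.1 x]
          set u := (s n x) ^ ((5 : ℝ) / 6)
          set v := (ρ x) ^ ((5 : ℝ) / 6)
          have e2 : u ^ 2 - v ^ 2 = (u - v) ^ 2 + 2 * v * (u - v) := by ring
          have h3 : |2 * v * (u - v)| ≤ η * v ^ 2 + 1 / η * (u - v) ^ 2 := by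
            have e3 : η * v ^ 2 + 1 / η * (u - v) ^ 2 - 2 * v * (u - v) =
              1 / η * (η * v - (u - v)) ^ 2 := by field_simp; ring
            have e4 : η * v ^ 2 + 1 / η * (u - v) ^ 2 + 2 * v * (u - v) =
              1 / η * (η * v + (u - v)) ^ 2 := by field_simp; ring
            have p1 : 0 ≤ 1 / η * (η * v - (u - v)) ^ 2 := by positivity
            have p2 : 0 ≤ 1 / η * (η * v + (u - v)) ^ 2 := by positivity
            rw [abs_le]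
            constructor <;> linarith
          calc |u ^ 2 - v ^ 2| ≤ |(u - v) ^ 2| + |2 * v * (u - v)| := by
                rw [e2]; exact abs_add_le _ _
            _ ≤ (u - v) ^ 2 + (η * v ^ 2 + 1 / η * (u - v) ^ 2) := by
                rw [abs_of_nonneg (sq_nonneg (u - v))]; linarith
            _ = _ := by ring
      rw [Metric.tendsto_atTop]
      intro ε hε
      set η : ℝ := ε / (2 * (I + 1)) with hη
      have hη0 : 0 < η := by positivity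
      have h1 : η * I ≤ ε / 2 := by
        rw [hη]
        calc ε / (2 * (I + 1)) * I = ε / 2 * (I / (I + 1)) := by field_simp
          _ ≤ ε / 2 * 1 := by
            gcongr
            rw [div_le_one (by positivity)]; linarith
          _ = ε / 2 := mul_one _
      have h2 : Tendsto (fun n => (1 + 1 / η) * D n) atTop (𝓝 0) := by
        simpa using hDlim.const_mul (1 + 1 / η)
      have h3 : ∀ᶠ n in atTop, (1 + 1 / η) * D n < ε / 2 :=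
        h2.eventually (gt_mem_nhds (by positivity))
      obtain ⟨N, hN⟩ := eventually_atTop.1 h3
      refine ⟨N, fun n hn => ?_⟩
      rw [Real.dist_eq]
      have := hbound η hη0 n
      have := hN n hn
      linarith
    exact hK.const_mul _
  · -- a.e. subsequence
    set g : ℕ → E3 → ℝ := fun n x =>
      ((s n x) ^ ((5 : ℝ) / 6) - (ρ x) ^ ((5 : ℝ) / 6)) ^ 2 with hg
    have hgi : ∀ n, Integrable (g n) := fun n => integrable_gain (hs n) hρ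
    have hL1 : Tendsto (fun n => eLpNorm (g n - (0 : E3 → ℝ)) 1 volume) atTop (𝓝 0) := by
      have e : ∀ n, eLpNorm (g n - (0 : E3 → ℝ)) 1 volume = ENNReal.ofReal (D n) := by
        intro n
        rw [sub_zero, eLpNorm_one_eq_lintegral_enorm, hD,
          ofReal_integral_eq_lintegral_ofReal (hgi n)
            (Eventually.of_forall fun x => sq_nonneg _)]
        apply lintegral_congr
        intro x
        rw [Real.enorm_eq_ofReal (sq_nonneg _)]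
      simp_rw [e]
      rw [← ENNReal.ofReal_zero]
      exact (ENNReal.continuous_ofReal.tendsto 0).comp hDlim
    have hmeas := tendstoInMeasure_of_tendsto_eLpNorm (p := 1) one_ne_zero
      (fun n => (hgi n).aestronglyMeasurable) aestronglyMeasurable_zero hL1
    obtain ⟨φ, hφ, hae⟩ := hmeas.exists_seq_tendsto_ae
    refine ⟨φ, hφ, ?_⟩
    have hae2 : ∀ᵐ x, Tendsto (fun n => s (φ n) x) atTop (𝓝 (ρ x)) := by
      filter_upwards [hae] with x hx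
      have h1 : Tendsto (fun n => (s (φ n) x) ^ ((5 : ℝ) / 6) - (ρ x) ^ ((5 : ℝ) / 6)) atTop
          (𝓝 0) := by
        have h2 : Tendsto (fun n => √(g (φ n) x)) atTop (𝓝 (√0)) :=
          (Real.continuous_sqrt.tendsto 0).comp (by simpa using hx)
        rw [Real.sqrt_zero] at h2
        have h3 : (fun n => √(g (φ n) x)) =
            fun n => |(s (φ n) x) ^ ((5 : ℝ) / 6) - (ρ x) ^ ((5 : ℝ) / 6)| := by
          ext n
          rw [hg, Real.sqrt_sq_eq_abs]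
        rw [h3] at h2
        exact (tendsto_zero_iff_abs_tendsto_zero _).2 h2
      have h2 : Tendsto (fun n => (s (φ n) x) ^ ((5 : ℝ) / 6)) atTop
          (𝓝 ((ρ x) ^ ((5 : ℝ) / 6))) := by
        have := h1.add_const ((ρ x) ^ ((5 : ℝ) / 6))
        simpa using this
      have h3 : Tendsto (fun n => ((s (φ n) x) ^ ((5 : ℝ) / 6)) ^ ((6 : ℝ) / 5)) atTop
          (𝓝 (((ρ x) ^ ((5 : ℝ) / 6)) ^ ((6 : ℝ) / 5))) :=
        ((Real.continuous_rpow_const (by norm_num : (0:ℝ) ≤ 6 / 5)).tendsto _).comp h2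
      have e1 : ∀ a : ℝ, 0 ≤ a → (a ^ ((5 : ℝ) / 6)) ^ ((6 : ℝ) / 5) = a := by
        intro a ha
        rw [← Real.rpow_mul ha]
        norm_num
      rw [e1 _ (hρ.1 x)] at h3
      refine h3.congr fun n => e1 _ ((hs (φ n)).1 x)
    intro δ hδ
    rcases le_or_gt ((∫ x, ρ x) - δ) 0 with h0 | h0
    · exact Eventually.of_forall fun n => h0.trans (hs (φ n)).integral_nonneg
    have hfatou : ∫⁻ x, ENNReal.ofReal (ρ x) ≤
        liminf (fun n => ∫⁻ x, ENNReal.ofReal (s (φ n) x)) atTop := by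
      have h1 : ∫⁻ x, ENNReal.ofReal (ρ x) =
          ∫⁻ x, liminf (fun n => ENNReal.ofReal (s (φ n) x)) atTop := by
        apply lintegral_congr_ae
        filter_upwards [hae2] with x hx
        exact (((ENNReal.continuous_ofReal.tendsto _).comp hx).liminf_eq).symm
      rw [h1]
      exact lintegral_liminf_le' fun n => (hs (φ n)).integrable.aemeasurable.ennreal_ofReal
    have hlt : ENNReal.ofReal ((∫ x, ρ x) - δ) <
        liminf (fun n => ∫⁻ x, ENNReal.ofReal (s (φ n) x)) atTop := by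
      refine lt_of_lt_of_le ?_ hfatou
      rw [← ofReal_integral_eq_lintegral_ofReal hρ.integrable (Eventually.of_forall hρ.1)]
      exact (ENNReal.ofReal_lt_ofReal_iff (by linarith)).2 (by linarith)
    filter_upwards [eventually_lt_of_lt_liminf hlt] with n hn
    rw [← ofReal_integral_eq_lintegral_ofReal (hs (φ n)).integrable
      (Eventually.of_forall (hs (φ n)).1)] at hn
    exact ((ENNReal.ofReal_lt_ofReal_iff_of_nonneg h0.le).1 hn).le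

/-- two minimisers have the same kinetic energy (as well as mass) -/
theorem Kin_eq_of_min (z : Fin k → ℝ) (R : Fin k → E3) (μ : ℝ) {a b : E3 → ℝ}
    (ha : Adm a) (hb : Adm b) (hE : F z R μ 1 a = F z R μ 1 b)
    (hmid : F z R μ 1 a ≤ F z R μ 1 (fun x => (1 / 2) * a x + (1 / 2) * b x)) :
    Kin a = Kin b ∧ ∫ x, a x = ∫ x, b x := by
  obtain ⟨c₀, hc₀, h⟩ := F_mid
  have h1 := h z R μ 1 a b ha hb
  have hD : ∫ x, (a x ^ ((5 : ℝ) / 6) - b x ^ ((5 : ℝ) / 6)) ^ 2 = 0 := by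
    apply le_antisymm _ (MeasureTheory.integral_nonneg fun x => sq_nonneg _)
    have : c₀ * ∫ x, (a x ^ ((5 : ℝ) / 6) - b x ^ ((5 : ℝ) / 6)) ^ 2 ≤ 0 := by
      rw [hE] at h1 hmid; linarith
    by_contra hcon
    push Not at hcon
    nlinarith [mul_pos hc₀ hcon]
  rw [integral_eq_zero_iff_of_nonneg (fun x => sq_nonneg _) (integrable_gain ha hb)] at hD
  have hab : a =ᵐ[volume] b := by
    filter_upwards [hD] with x hx
    have h2 : a x ^ ((5 : ℝ) / 6) = b x ^ ((5 : ℝ) / 6) := by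
      have : (a x ^ ((5 : ℝ) / 6) - b x ^ ((5 : ℝ) / 6)) ^ 2 = 0 := hx
      have := pow_eq_zero_iff (two_ne_zero) |>.1 this
      linarith
    exact (Real.rpow_left_inj (ha.1 x) (hb.1 x) (by norm_num)).1 h2
  constructor
  · unfold Kin
    congr 1
    apply integral_congr_ae
    filter_upwards [hab] with x hx
    rw [hx]
  · exact integral_congr_ae hab

/-- the decreasing-differences property (PART III) for fixed charges and positions -/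
def DDprop (z : Fin k → ℝ) (R : Fin k → E3) : Prop :=
  ∀ μ₁ μ₂ l l' : ℝ, 0 < μ₂ → μ₂ < μ₁ → 0 < l → l ≤ l' →
    ∀ σ τ : E3 → ℝ, Adm σ → Adm τ → ∀ δ : ℝ, 0 < δ →
    ∃ ρ ρ' : E3 → ℝ, Adm ρ ∧ Adm ρ' ∧
      F z R μ₁ l' ρ + F z R μ₂ l ρ' ≤ F z R μ₁ l σ + F z R μ₂ l' τ + δ

/-- one application of `DD` -/
theorem step1 {z : Fin k → ℝ} {R : Fin k → E3} (hDD : DDprop z R) {μ₁ μ₂ : ℝ} (h2 : 0 ≤ μ₂)
    (h12 : μ₂ < μ₁) {ρ₂ : E3 → ℝ} (hρ₂ : Adm ρ₂)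
    (hmin2 : ∀ s, Adm s → F z R μ₂ 1 ρ₂ ≤ F z R μ₂ 1 s) {σ : E3 → ℝ} (hσ : Adm σ)
    {ε : ℝ} (hε : 0 < ε) :
    ∃ s : E3 → ℝ, Adm s ∧
      ((1 + ε) ^ 2)⁻¹ * Kin s + (1 + ε)⁻¹ * Bp z R s + μ₁ * (∫ x, s x) ≤
        F z R μ₁ 1 σ + (((1 + ε) ^ 2)⁻¹ - 1) * Kin ρ₂ + ((1 + ε)⁻¹ - 1) * Bp z R ρ₂
          + 2 * ε ^ 2 := by
  set l' : ℝ := 1 + ε with hl'
  have hl'0 : 0 < l' := by linarith
  set m₂ : ℝ := ∫ x, ρ₂ x with hm₂
  have hm₂0 : 0 ≤ m₂ := hρ₂.integral_nonneg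
  obtain ⟨e, he0, he1, he2⟩ : ∃ e : ℝ, 0 < e ∧ e < μ₁ - μ₂ ∧ e * m₂ ≤ ε ^ 2 := by
    refine ⟨min ((μ₁ - μ₂) / 2) (ε ^ 2 / (m₂ + 1)), ?_, ?_, ?_⟩
    · apply lt_min
      · linarith
      · positivity
    · exact lt_of_le_of_lt (min_le_left _ _) (by linarith)
    · calc min ((μ₁ - μ₂) / 2) (ε ^ 2 / (m₂ + 1)) * m₂ ≤ ε ^ 2 / (m₂ + 1) * m₂ := by
            gcongr
            exact min_le_right _ _
        _ = ε ^ 2 * (m₂ / (m₂ + 1)) := by ring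
        _ ≤ ε ^ 2 * 1 := by
            gcongr
            rw [div_le_one (by positivity)]
            linarith
        _ = ε ^ 2 := mul_one _
  obtain ⟨ρ, ρ', hρ, hρ', h⟩ := hDD μ₁ (μ₂ + e) 1 l' (by linarith) (by linarith) one_pos
    (by linarith) σ (dil l' ρ₂) hσ (hρ₂.dil hl'0) (ε ^ 2) (by positivity)
  have hinv : Adm (dil l'⁻¹ ρ) := hρ.dil (inv_pos.2 hl'0)
  refine ⟨dil l'⁻¹ ρ, hinv, ?_⟩
  rw [← F_dil_eq z R μ₁ hl'0 _ hinv.1, dil_dil_inv hl'0]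
  rw [F_dil_eq z R _ hl'0 ρ₂ hρ₂.1, ← hm₂] at h
  have h3 : F z R μ₂ 1 ρ₂ ≤ F z R (μ₂ + e) 1 ρ' := by
    have h4 := hmin2 ρ' hρ'
    rw [F_one_eq z R μ₂ ρ'] at h4
    rw [F_one_eq z R (μ₂ + e) ρ']
    have h5 : 0 ≤ e * ∫ x, ρ' x := mul_nonneg he0.le hρ'.integral_nonneg
    linarith
  rw [F_one_eq z R μ₂ ρ₂, ← hm₂] at h3
  linarith

/-- coercivity -/
theorem coercive (z : Fin k → ℝ) (hz : ∀ i, 0 < z i) (R : Fin k → E3) {μ : ℝ} (hμ : 0 < μ) :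
    ∃ C : ℝ, 0 < C ∧ ∀ ε : ℝ, 0 < ε → ε ≤ 1 → ∀ s : E3 → ℝ, Adm s →
      (1 / 8) * Kin s + (1 / 4) * Coul s s + (μ / 2) * (∫ x, s x) ≤
        ((1 + ε) ^ 2)⁻¹ * Kin s + (1 + ε)⁻¹ * Bp z R s + μ * (∫ x, s x) + C := by
  have hz' : ∀ i, 0 ≤ z i := fun i => (hz i).le
  obtain ⟨C, hC, hA⟩ := Att_le z hz'
  have hZ : 0 ≤ ∑ i, z i := Finset.sum_nonneg fun i _ => hz' i
  set r : ℝ := 2 * (∑ i, z i + 1) / μ with hr
  have hr0 : 0 < r := by positivity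
  have hZr : (∑ i, z i) / r ≤ μ / 2 := by
    rw [hr, div_le_iff₀ (by positivity)]
    have : μ / 2 * (2 * (∑ i, z i + 1) / μ) = ∑ i, z i + 1 := by field_simp
    rw [this]; linarith
  refine ⟨C * (1 / 8 : ℝ) ^ (-(3 / 2) : ℝ) * √r, by positivity, ?_⟩
  intro ε hε hε1 s hs
  have h1 := hA (1 / 8) r (by norm_num) hr0 R 1 s hs
  have hK := Kin_nonneg hs
  have hC2 := Coul_nonneg hs hs
  have hAt := Att_nonneg hz' R 1 hs
  have hm := hs.integral_nonneg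
  have h2 : (∑ i, z i) / r * (∫ x, s x) ≤ μ / 2 * ∫ x, s x := mul_le_mul_of_nonneg_right hZr hm
  have h3 : 1 / 4 ≤ ((1 + ε) ^ 2)⁻¹ := by
    rw [one_div]
    apply inv_anti₀ (by positivity)
    nlinarith
  have h4 : 1 / 2 ≤ (1 + ε)⁻¹ := by
    rw [one_div]
    apply inv_anti₀ (by positivity)
    linarith
  have h5 : (1 + ε)⁻¹ ≤ 1 := by
    apply inv_le_one_of_one_le₀; linarith
  rw [Bp]
  have h6 : 1 / 4 * Kin s ≤ ((1 + ε) ^ 2)⁻¹ * Kin s := mul_le_mul_of_nonneg_right h3 hK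
  have h7 : 1 / 2 * Coul s s ≤ (1 + ε)⁻¹ * Coul s s := mul_le_mul_of_nonneg_right h4 hC2
  have h8 : (1 + ε)⁻¹ * Att z R 1 s ≤ 1 * Att z R 1 s := mul_le_mul_of_nonneg_right h5 hAt
  linarith

/-- approximate minimisers produced by `DD` -/
theorem step2 {z : Fin k → ℝ} (hz : ∀ i, 0 < z i) {R : Fin k → E3} (hDD : DDprop z R)
    {μ₁ μ₂ : ℝ} (h2 : 0 ≤ μ₂) (h12 : μ₂ < μ₁) {ρ₂ : E3 → ℝ} (hρ₂ : Adm ρ₂)
    (hmin2 : ∀ s, Adm s → F z R μ₂ 1 ρ₂ ≤ F z R μ₂ 1 s) {ρ₁ : E3 → ℝ} (hρ₁ : Adm ρ₁)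
    (hmin1 : ∀ s, Adm s → F z R μ₁ 1 ρ₁ ≤ F z R μ₁ 1 s) :
    ∃ M : ℝ, ∀ ε : ℝ, 0 < ε → ε ≤ 1 → ∃ s : E3 → ℝ, Adm s ∧
      F z R μ₁ 1 s ≤ F z R μ₁ 1 ρ₁ + M * ε ∧
      (2 + ε) * Kin ρ₂ + (1 + ε) * Bp z R ρ₂ ≤
        (2 + ε) * Kin s + (1 + ε) * Bp z R s + 2 * ε * (1 + ε) ^ 2 := by
  have hμ₁ : 0 < μ₁ := by linarith
  obtain ⟨C, hC, hco⟩ := coercive z hz R hμ₁
  set Q : ℝ := F z R μ₁ 1 ρ₁ + |Bp z R ρ₂| + 2 with hQ
  refine ⟨|Bp z R ρ₂| + 2 + 18 * (Q + C), ?_⟩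
  intro ε hε hε1
  obtain ⟨s, hs, h⟩ := step1 hDD h2 h12 hρ₂ hmin2 hρ₁ hε
  have hK := Kin_nonneg hs
  have hC2 := Coul_nonneg hs hs
  have hm := hs.integral_nonneg
  have hK2 := Kin_nonneg hρ₂
  have hl0 : 0 < 1 + ε := by linarith
  have hAt := Att_nonneg (fun i => (hz i).le) R 1 hs
  have e1 : (1 + ε)⁻¹ - 1 = - (ε * (1 + ε)⁻¹) := by field_simp; ring
  have e2 : ((1 + ε) ^ 2)⁻¹ - 1 = - (ε * (2 + ε) * ((1 + ε) ^ 2)⁻¹) := by field_simp; ring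
  have i1 : (1 + ε)⁻¹ ≤ 1 := by apply inv_le_one_of_one_le₀; linarith
  have i1' : 0 < (1 + ε)⁻¹ := by positivity
  have i2 : (2 + ε) * ((1 + ε) ^ 2)⁻¹ ≤ 2 := by
    rw [← div_eq_mul_inv, div_le_iff₀ (by positivity)]; nlinarith
  have i2' : 0 < (2 + ε) * ((1 + ε) ^ 2)⁻¹ := by positivity
  -- upper bound of the right-hand side
  have hR1 : (((1 + ε) ^ 2)⁻¹ - 1) * Kin ρ₂ ≤ 0 := by
    rw [e2]
    have : 0 ≤ ε * (2 + ε) * ((1 + ε) ^ 2)⁻¹ * Kin ρ₂ := by positivity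
    linarith
  have hR2 : ((1 + ε)⁻¹ - 1) * Bp z R ρ₂ ≤ ε * |Bp z R ρ₂| := by
    rw [e1]
    calc -(ε * (1 + ε)⁻¹) * Bp z R ρ₂ = ε * ((1 + ε)⁻¹ * (- Bp z R ρ₂)) := by ring
      _ ≤ ε * ((1 + ε)⁻¹ * |Bp z R ρ₂|) := by
          gcongr
          exact neg_le_abs _
      _ ≤ ε * (1 * |Bp z R ρ₂|) := by gcongr
      _ = _ := by ring
  have hε2 : ε ^ 2 ≤ ε := by nlinarith
  have hX : ((1 + ε) ^ 2)⁻¹ * Kin s + (1 + ε)⁻¹ * Bp z R s + μ₁ * (∫ x, s x) ≤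
      F z R μ₁ 1 ρ₁ + ε * (|Bp z R ρ₂| + 2) := by linarith
  have hXQ : ((1 + ε) ^ 2)⁻¹ * Kin s + (1 + ε)⁻¹ * Bp z R s + μ₁ * (∫ x, s x) ≤ Q := by
    have : ε * (|Bp z R ρ₂| + 2) ≤ 1 * (|Bp z R ρ₂| + 2) := by gcongr
    rw [hQ]; linarith
  have hcos := hco ε hε hε1 s hs
  have hmm : 0 ≤ μ₁ / 2 * ∫ x, s x := by positivity
  have hKle : Kin s ≤ 8 * (Q + C) := by linarith
  have hCle : Coul s s ≤ 4 * (Q + C) := by linarith
  have hBle : Bp z R s ≤ 1 / 2 * Coul s s := by rw [Bp]; linarith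
  refine ⟨s, hs, ?_, ?_⟩
  · rw [F_one_eq z R μ₁ s]
    have h5 : (1 - ((1 + ε) ^ 2)⁻¹) * Kin s ≤ 2 * ε * (8 * (Q + C)) := by
      have : 1 - ((1 + ε) ^ 2)⁻¹ = ε * ((2 + ε) * ((1 + ε) ^ 2)⁻¹) := by linarith
      rw [this]
      calc ε * ((2 + ε) * ((1 + ε) ^ 2)⁻¹) * Kin s ≤ ε * 2 * Kin s := by gcongr
        _ ≤ ε * 2 * (8 * (Q + C)) := by gcongr
        _ = _ := by ring
    have h6 : (1 - (1 + ε)⁻¹) * Bp z R s ≤ ε * (2 * (Q + C)) := by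
      have : 1 - (1 + ε)⁻¹ = ε * (1 + ε)⁻¹ := by linarith
      rw [this]
      calc ε * (1 + ε)⁻¹ * Bp z R s ≤ ε * (1 + ε)⁻¹ * (1 / 2 * Coul s s) := by gcongr
        _ = ε * ((1 + ε)⁻¹ * (1 / 2 * Coul s s)) := by ring
        _ ≤ ε * (1 * (1 / 2 * Coul s s)) := by gcongr
        _ ≤ ε * (1 * (1 / 2 * (4 * (Q + C)))) := by gcongr
        _ = _ := by ring
    nlinarith
  · have h7 := hmin1 s hs
    rw [F_one_eq z R μ₁ s] at h7
    have h8 : (((1 + ε) ^ 2)⁻¹ - 1) * Kin s + ((1 + ε)⁻¹ - 1) * Bp z R s ≤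
        (((1 + ε) ^ 2)⁻¹ - 1) * Kin ρ₂ + ((1 + ε)⁻¹ - 1) * Bp z R ρ₂ + 2 * ε ^ 2 := by linarith
    have e3 : ∀ K B : ℝ, (1 + ε) ^ 2 * ((((1 + ε) ^ 2)⁻¹ - 1) * K + ((1 + ε)⁻¹ - 1) * B) =
        - (ε * ((2 + ε) * K + (1 + ε) * B)) := by
      intro K B
      field_simp
      ring
    have h9 := mul_le_mul_of_nonneg_left h8 (by positivity : 0 ≤ (1 + ε) ^ 2)
    rw [e3 (Kin s) (Bp z R s), mul_add ((1 + ε) ^ 2), e3] at h9
    have h10 : ε * ((2 + ε) * Kin ρ₂ + (1 + ε) * Bp z R ρ₂) ≤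
        ε * ((2 + ε) * Kin s + (1 + ε) * Bp z R s + 2 * ε * (1 + ε) ^ 2) := by
      have : ε * (2 * ε * (1 + ε) ^ 2) = (1 + ε) ^ 2 * (2 * ε ^ 2) := by ring
      linarith
    exact le_of_mul_le_mul_left h10 hε

/-- main inequality for two multipliers `μ₂ < μ₁` -/
theorem main_ineq {z : Fin k → ℝ} (hz : ∀ i, 0 < z i) {R : Fin k → E3} (hDD : DDprop z R)
    {μ₁ μ₂ : ℝ} (h2 : 0 ≤ μ₂) (h12 : μ₂ < μ₁) {ρ₂ : E3 → ℝ} (hρ₂ : Adm ρ₂)
    (hmin2 : ∀ s, Adm s → F z R μ₂ 1 ρ₂ ≤ F z R μ₂ 1 s) {ρ₁ : E3 → ℝ} (hρ₁ : Adm ρ₁)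
    (hmin1 : ∀ s, Adm s → F z R μ₁ 1 ρ₁ ≤ F z R μ₁ 1 s) :
    2 * Kin ρ₂ + Bp z R ρ₂ ≤ 2 * Kin ρ₁ + Bp z R ρ₁ := by
  obtain ⟨M, hM⟩ := step2 hz hDD h2 h12 hρ₂ hmin2 hρ₁ hmin1
  set ε : ℕ → ℝ := fun n => 1 / ((n : ℝ) + 1) with hε
  have hε0 : ∀ n, 0 < ε n := fun n => by simp only [hε]; positivity
  have hε1 : ∀ n, ε n ≤ 1 := fun n => by
    simp only [hε]
    rw [div_le_one (by positivity)]
    have : (0 : ℝ) ≤ n := Nat.cast_nonneg n
    linarith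
  have hεlim : Tendsto ε atTop (𝓝 0) := tendsto_one_div_add_atTop_nhds_zero_nat
  choose s hs hF hI using fun n => hM (ε n) (hε0 n) (hε1 n)
  have hFlim : Tendsto (fun n => F z R μ₁ 1 (s n)) atTop (𝓝 (F z R μ₁ 1 ρ₁)) := by
    have h3 : Tendsto (fun n => F z R μ₁ 1 ρ₁ + M * ε n) atTop (𝓝 (F z R μ₁ 1 ρ₁)) := by
      simpa using (hεlim.const_mul M).const_add (F z R μ₁ 1 ρ₁)
    exact tendsto_of_tendsto_of_tendsto_of_le_of_le tendsto_const_nhds h3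
      (fun n => hmin1 _ (hs n)) hF
  obtain ⟨hK, φ, hφ, hmass⟩ := min_seq_limit z R μ₁ hρ₁ hmin1 s hs hFlim
  have hφt := hφ.tendsto_atTop
  -- pass to the limit
  apply le_of_forall_pos_le_add
  intro δ hδ
  have hμ₁ : 0 < μ₁ := by linarith
  set δ' := δ / (4 * μ₁) with hδ'
  have hδ'0 : 0 < δ' := by positivity
  have hl1 : Tendsto (fun n => (2 + ε (φ n)) * Kin ρ₂ + (1 + ε (φ n)) * Bp z R ρ₂) atTop
      (𝓝 ((2 + 0) * Kin ρ₂ + (1 + 0) * Bp z R ρ₂)) := by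
    have := hεlim.comp hφt
    exact ((this.const_add 2).mul_const _).add ((this.const_add 1).mul_const _)
  have hl2 : Tendsto (fun n => Kin (s (φ n)) + (1 + ε (φ n)) *
      (F z R μ₁ 1 (s (φ n)) - μ₁ * ((∫ x, ρ₁ x) - δ')) + 2 * ε (φ n) * (1 + ε (φ n)) ^ 2) atTop
      (𝓝 (Kin ρ₁ + (1 + 0) * (F z R μ₁ 1 ρ₁ - μ₁ * ((∫ x, ρ₁ x) - δ'))
        + 2 * 0 * (1 + 0) ^ 2)) := by
    have h4 := hεlim.comp hφt
    have h5 := hK.comp hφt
    have h6 := hFlim.comp hφt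
    exact (h5.add ((h4.const_add 1).mul (h6.sub_const _))).add
      ((h4.const_mul 2).mul ((h4.const_add 1).pow 2))
  have hle := le_of_tendsto_of_tendsto hl1 hl2 (by
    filter_upwards [hmass δ' hδ'0] with n hn
    have h7 := hI (φ n)
    have h8 : (2 + ε (φ n)) * Kin (s (φ n)) + (1 + ε (φ n)) * Bp z R (s (φ n)) =
        Kin (s (φ n)) + (1 + ε (φ n)) * (F z R μ₁ 1 (s (φ n)) - μ₁ * ∫ x, s (φ n) x) := by
      rw [F_one_eq]; ring
    rw [h8] at h7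
    have h9 : (1 + ε (φ n)) * (F z R μ₁ 1 (s (φ n)) - μ₁ * ∫ x, s (φ n) x) ≤
        (1 + ε (φ n)) * (F z R μ₁ 1 (s (φ n)) - μ₁ * ((∫ x, ρ₁ x) - δ')) := by
      have := hε0 (φ n)
      gcongr
    linarith)
  rw [F_one_eq] at hle
  have e1 : μ₁ * δ' = δ / 4 := by rw [hδ']; field_simp
  linarith

/-- the case of zero mass -/
theorem zero_ineq {z : Fin k → ℝ} (hz : ∀ i, 0 < z i) {R : Fin k → E3} (hDD : DDprop z R)
    {μ₂ : ℝ} (h2 : 0 ≤ μ₂) {ρ₂ : E3 → ℝ} (hρ₂ : Adm ρ₂)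
    (hmin2 : ∀ s, Adm s → F z R μ₂ 1 ρ₂ ≤ F z R μ₂ 1 s) :
    2 * Kin ρ₂ + Bp z R ρ₂ ≤ 0 := by
  have hz' : ∀ i, 0 ≤ z i := fun i => (hz i).le
  obtain ⟨C, hC, hA⟩ := Att_le z hz'
  have hZ : 0 ≤ ∑ i, z i := Finset.sum_nonneg fun i _ => hz' i
  have hF0 : ∀ μ, F z R μ 1 (fun _ => 0) = 0 := by
    intro μ
    simp [F]
  -- lower bound for large μ₁
  have key : ∀ ε : ℝ, 0 < ε → ε ≤ 1 →
      0 ≤ (((1 + ε) ^ 2)⁻¹ - 1) * Kin ρ₂ + ((1 + ε)⁻¹ - 1) * Bp z R ρ₂ + 2 * ε ^ 2 := by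
    intro ε hε hε1
    apply le_of_forall_pos_le_add
    intro η hη
    -- choose r with C' √r ≤ η, μ₁ large
    set C' : ℝ := C * (1 / 4 : ℝ) ^ (-(3 / 2) : ℝ) with hC'
    have hC'0 : 0 < C' := by positivity
    set r : ℝ := (η / C') ^ 2 with hr
    have hr0 : 0 < r := by positivity
    have hsr : C' * √r = η := by
      rw [hr, Real.sqrt_sq (by positivity)]; field_simp
    set μ₁ : ℝ := μ₂ + 1 + (∑ i, z i) / r with hμ₁
    have hZr : 0 ≤ (∑ i, z i) / r := by positivity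
    obtain ⟨s, hs, h⟩ := step1 hDD h2 (by linarith : μ₂ < μ₁) hρ₂ hmin2 Adm.zero hε
    rw [hF0, zero_add] at h
    refine le_trans ?_ (add_le_add_left h η)
    have h1 := hA (1 / 4) r (by norm_num) hr0 R 1 s hs
    have hK := Kin_nonneg hs
    have hC2 := Coul_nonneg hs hs
    have hAt := Att_nonneg hz' R 1 hs
    have hm := hs.integral_nonneg
    have h3 : 1 / 4 ≤ ((1 + ε) ^ 2)⁻¹ := by
      rw [one_div]
      apply inv_anti₀ (by positivity)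
      nlinarith
    have h4 : 0 ≤ (1 + ε)⁻¹ := by positivity
    have h5 : (1 + ε)⁻¹ ≤ 1 := by
      apply inv_le_one_of_one_le₀; linarith
    have h6 : 1 / 4 * Kin s ≤ ((1 + ε) ^ 2)⁻¹ * Kin s := mul_le_mul_of_nonneg_right h3 hK
    have h7 : 0 ≤ (1 + ε)⁻¹ * (1 / 2 * Coul s s) := by positivity
    have h8 : (1 + ε)⁻¹ * Att z R 1 s ≤ 1 * Att z R 1 s := mul_le_mul_of_nonneg_right h5 hAt
    have h9 : (∑ i, z i) / r * (∫ x, s x) ≤ μ₁ * ∫ x, s x :=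
      mul_le_mul_of_nonneg_right (by linarith) hm
    rw [← hC', hsr] at h1
    rw [Bp]
    linarith
  have key2 : ∀ ε : ℝ, 0 < ε → ε ≤ 1 →
      (2 + ε) * Kin ρ₂ + (1 + ε) * Bp z R ρ₂ ≤ 2 * ε * (1 + ε) ^ 2 := by
    intro ε hε hε1
    have h8 := key ε hε hε1
    have e3 : (1 + ε) ^ 2 * ((((1 + ε) ^ 2)⁻¹ - 1) * Kin ρ₂ + ((1 + ε)⁻¹ - 1) * Bp z R ρ₂
        + 2 * ε ^ 2) =
        ε * (2 * ε * (1 + ε) ^ 2 - ((2 + ε) * Kin ρ₂ + (1 + ε) * Bp z R ρ₂)) := by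
      field_simp
      ring
    have h9 := mul_nonneg (by positivity : 0 ≤ (1 + ε) ^ 2) h8
    rw [e3] at h9
    have := nonneg_of_mul_nonneg_right h9 hε
    linarith
  -- limit ε → 0
  set ε : ℕ → ℝ := fun n => 1 / ((n : ℝ) + 1) with hε
  have hε0 : ∀ n, 0 < ε n := fun n => by simp only [hε]; positivity
  have hε1 : ∀ n, ε n ≤ 1 := fun n => by
    simp only [hε]
    rw [div_le_one (by positivity)]
    have : (0 : ℝ) ≤ n := Nat.cast_nonneg n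
    linarith
  have hεlim : Tendsto ε atTop (𝓝 0) := tendsto_one_div_add_atTop_nhds_zero_nat
  have hl1 : Tendsto (fun n => (2 + ε n) * Kin ρ₂ + (1 + ε n) * Bp z R ρ₂) atTop
      (𝓝 ((2 + 0) * Kin ρ₂ + (1 + 0) * Bp z R ρ₂)) :=
    ((hεlim.const_add 2).mul_const _).add ((hεlim.const_add 1).mul_const _)
  have hl2 : Tendsto (fun n => 2 * ε n * (1 + ε n) ^ 2) atTop (𝓝 (2 * 0 * (1 + 0) ^ 2)) :=
    (hεlim.const_mul 2).mul ((hεlim.const_add 1).pow 2)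
  have hle := le_of_tendsto_of_tendsto' hl1 hl2 fun n => key2 (ε n) (hε0 n) (hε1 n)
  linarith

/-- frozen statement S15675 from PART III -/
theorem final_of_DD (z : Fin k → ℝ) (R : Fin k → E3) (hz : ∀ i, 0 < z i)
    (hDD : DDprop z R)
    (A : (E3 → ℝ) → Prop) (E : (E3 → ℝ) → ℝ)
    (hA : ∀ ρ, A ρ ↔ ((∀ x, 0 ≤ ρ x) ∧ Integrable ρ ∧
        Integrable (fun x => ρ x ^ ((5 : ℝ) / 3))))
    (hE : ∀ ρ, E ρ =
        (3 / 5 : ℝ) * (∫ x, ρ x ^ ((5 : ℝ) / 3))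
        - (∫ x, (∑ i, z i / ‖x - R i‖) * ρ x)
        + (1 / 2 : ℝ) * (∫ x, (∫ y, ρ x * ρ y / ‖x - y‖))
        + ∑ i, ∑ j, (if i < j then z i * z j / ‖R i - R j‖ else 0))
    (l₁ l₂ : ℝ) (ρ₁ ρ₂ : E3 → ℝ)
    (h0 : 0 ≤ l₁) (h12 : l₁ ≤ l₂)
    (hA1 : A ρ₁) (hm1 : (∫ x, ρ₁ x) = l₁)
    (hmin1 : ∀ σ, A σ → (∫ x, σ x) = l₁ → E ρ₁ ≤ E σ)
    (hA2 : A ρ₂) (hm2 : (∫ x, ρ₂ x) = l₂)
    (hmin2 : ∀ σ, A σ → (∫ x, σ x) = l₂ → E ρ₂ ≤ E σ) :
    E ρ₂ + (3 / 5 : ℝ) * (∫ x, ρ₂ x ^ ((5 : ℝ) / 3))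
      ≤ E ρ₁ + (3 / 5 : ℝ) * (∫ x, ρ₁ x ^ ((5 : ℝ) / 3)) := by
  obtain ⟨U, hU⟩ : ∃ U : ℝ, ∀ ρ, E ρ = Kin ρ + Bp z R ρ + U := by
    refine ⟨∑ i, ∑ j, (if i < j then z i * z j / ‖R i - R j‖ else 0), fun ρ => ?_⟩
    rw [hE ρ, Kin, Bp, Att, Coul]
    simp only [one_smul]
    ring
  have hAdm : ∀ ρ, A ρ ↔ Adm ρ := fun ρ => hA ρ
  have hρ₁ : Adm ρ₁ := (hAdm _).1 hA1
  have hρ₂ : Adm ρ₂ := (hAdm _).1 hA2
  have hgoal : 2 * Kin ρ₂ + Bp z R ρ₂ ≤ 2 * Kin ρ₁ + Bp z R ρ₁ →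
      E ρ₂ + (3 / 5 : ℝ) * (∫ x, ρ₂ x ^ ((5 : ℝ) / 3))
      ≤ E ρ₁ + (3 / 5 : ℝ) * (∫ x, ρ₁ x ^ ((5 : ℝ) / 3)) := by
    intro h
    rw [hU, hU]
    change Kin ρ₂ + Bp z R ρ₂ + U + Kin ρ₂ ≤ Kin ρ₁ + Bp z R ρ₁ + U + Kin ρ₁
    linarith
  apply hgoal
  have hmin1' : ∀ s, Adm s → (∫ x, s x) = ∫ x, ρ₁ x →
      Kin ρ₁ + Bp z R ρ₁ ≤ Kin s + Bp z R s := by
    intro s hs hsm
    have := hmin1 s ((hAdm _).2 hs) (hsm.trans hm1)
    rw [hU, hU] at this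
    linarith
  have hmin2' : ∀ s, Adm s → (∫ x, s x) = ∫ x, ρ₂ x →
      Kin ρ₂ + Bp z R ρ₂ ≤ Kin s + Bp z R s := by
    intro s hs hsm
    have := hmin2 s ((hAdm _).2 hs) (hsm.trans hm2)
    rw [hU, hU] at this
    linarith
  rcases h12.eq_or_lt with h | h
  · -- equal masses
    have hmm : ∫ x, ρ₁ x = ∫ x, ρ₂ x := by rw [hm1, hm2, h]
    have e1 : Kin ρ₁ + Bp z R ρ₁ = Kin ρ₂ + Bp z R ρ₂ :=
      le_antisymm (hmin1' _ hρ₂ hmm.symm) (hmin2' _ hρ₁ hmm)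
    have hA' : Adm (fun x => (1 / 2) * ρ₁ x + (1 / 2) * ρ₂ x) :=
      (hρ₁.const_mul (by norm_num)).add (hρ₂.const_mul (by norm_num))
    have hmass : ∫ x, ((1 / 2) * ρ₁ x + (1 / 2) * ρ₂ x) = ∫ x, ρ₁ x := by
      rw [integral_add (hρ₁.integrable.const_mul _) (hρ₂.integrable.const_mul _),
        integral_const_mul, integral_const_mul, ← hmm]
      ring
    have hK := Kin_eq_of_min z R 0 hρ₁ hρ₂ (by rw [F_one_eq, F_one_eq, e1]; simp) (by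
      have := hmin1' _ hA' hmass
      rw [F_one_eq, F_one_eq]
      simpa using this)
    linarith [hK.1]
  · have hpos2 : 0 < ∫ x, ρ₂ x := by rw [hm2]; linarith
    obtain ⟨μ₂, hμ₂, hM2⟩ := exists_mult z hz R hρ₂ hpos2 hmin2'
    rcases h0.eq_or_lt with h0' | h0'
    · -- zero mass
      have hz1 : Kin ρ₁ = 0 ∧ ∫ x, ρ₁ x = 0 ∧ Kin ρ₁ + Bp z R ρ₁ = 0 := by
        have hm : ∫ x, ρ₁ x = 0 := by rw [hm1, ← h0']
        have hae : ρ₁ =ᵐ[volume] 0 :=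
          (integral_eq_zero_iff_of_nonneg hρ₁.1 hρ₁.integrable).1 hm
        have hK : Kin ρ₁ = 0 := by
          unfold Kin
          have : ∫ x, ρ₁ x ^ ((5 : ℝ) / 3) = ∫ x : E3, (0 : ℝ) := by
            apply integral_congr_ae
            filter_upwards [hae] with x hx
            rw [hx]
            simp
          rw [this]
          simp
        refine ⟨hK, hm, ?_⟩
        have hAt : Att z R 1 ρ₁ = 0 := by
          unfold Att
          have : ∫ x, (∑ i, z i / ‖x - (1 : ℝ) • R i‖) * ρ₁ x = ∫ x : E3, (0 : ℝ) := by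
            apply integral_congr_ae
            filter_upwards [hae] with x hx
            rw [hx]
            simp
          rw [this]
          simp
        have hCo : Coul ρ₁ ρ₁ = 0 := by
          unfold Coul
          have : ∫ x, ∫ y, ρ₁ x * ρ₁ y / ‖x - y‖ = ∫ x : E3, (0 : ℝ) := by
            apply integral_congr_ae
            filter_upwards [hae] with x hx
            rw [hx]
            simp
          rw [this]
          simp
        rw [hK, Bp, hAt, hCo]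
        simp
      have := zero_ineq hz hDD hμ₂ hρ₂ hM2
      linarith [hz1.1, hz1.2.2]
    · have hpos1 : 0 < ∫ x, ρ₁ x := by rw [hm1]; exact h0'
      obtain ⟨μ₁, hμ₁, hM1⟩ := exists_mult z hz R hρ₁ hpos1 hmin1'
      have a1 := hM1 ρ₂ hρ₂
      have a2 := hM2 ρ₁ hρ₁
      have hle : μ₂ ≤ μ₁ := by
        rw [F_one_eq, F_one_eq, hm1, hm2] at a1 a2
        by_contra hcon
        push Not at hcon
        nlinarith
      rcases hle.eq_or_lt with heq | hlt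
      · -- equal multipliers
        rw [heq] at a2
        have hA' : Adm (fun x => (1 / 2) * ρ₁ x + (1 / 2) * ρ₂ x) :=
          (hρ₁.const_mul (by norm_num)).add (hρ₂.const_mul (by norm_num))
        have hK := Kin_eq_of_min z R μ₁ hρ₁ hρ₂ (le_antisymm a1 a2) (hM1 _ hA')
        have := hK.2
        rw [hm1, hm2] at this
        exact absurd this h.ne
      · exact main_ineq hz hDD hμ₂ hlt hρ₂ hM2 hρ₁ hM1

end Pool.Agent.H29.TF
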